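import Pool.Agent.H82.BO.Stmt
import Pool.Agent.H15.FLD.Targets
import Pool.Agent.H53.UK.Targets

/-!
MP_c62aed_lc, cutting planes for random CNFs, the optimal exponent: the rows.
Models: the rows of `Pool/Agent/H15/FLC/Targets.lean` and `Pool/Agent/H15/FLD/Targets.lean`.
-/

set_option autoImplicit false

namespace Pool.Agent.H82.BO

open Finset
open Pool.Agent.H15.FLC (Half Violates InsC CovC KerC ErrC BRC ERC KRC BadC)
open Pool.Agent.H15.FLD (H0 tau0 Par0 T_EB0 T_HX0 T_NM0)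

/-- The `i` which are hit by `y`: some `D (i, j)` is violated by `y`. -/
def RG {n l M μ : ℕ} (D : Fin M × Fin μ → Half n l) (y : Fin n → Bool) : Set (Fin M) :=
  {i | ∃ j, Violates (D (i, j)) y}

/-- Few `y` hit `q + 1` given `i`. -/
def YG {n l M μ : ℕ} (D : Fin M × Fin μ → Half n l) (w q : ℕ) : Prop :=
  ∀ T : Finset (Fin M), T.card = q + 1 →
    Nat.card {y : Fin n → Bool // ∀ i ∈ T, i ∈ RG D y} ≤ 2 ^ (n - w)

/-! ### The proof for good formulas -/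

/-- LFG: few `y` are bad for a chain. -/
def T_LFG : Prop :=
  ∀ {n k m : ℕ} (H : Fin m → Half n k) (R : (Fin n → Bool) → Set (Fin m)) (w s₀ q N : ℕ),
    (∀ p : Finset (Fin n) × (Fin n → Bool), p.1.card < w → Nat.card {c // InsC H p c} ≤ s₀) →
    (∀ T : Finset (Fin m), T.card = q + 1 →
      Nat.card {y : Fin n → Bool // ∀ c ∈ T, c ∈ R y} ≤ N) →
    ∀ 𝒦 : Set (Set (Finset (Fin n) × (Fin n → Bool))), IsChain (· ⊆ ·) 𝒦 →
      (∀ K ∈ 𝒦, ∀ p ∈ K, p.1.card < w) →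
      Nat.card {y : Fin n → Bool // BadC H q 𝒦 (R y)} ≤ s₀ ^ (q + 1) * N

/-- PRG: for good `y` every line has a small cover. -/
def T_PRG : Prop :=
  ∀ {n k l M μ : ℕ} (F : Formula n k l M μ) (r w q t s : ℕ) (f g : ℕ → (Fin n → Bool) → ℝ),
    t + t * q ≤ r → ∀ y : Fin n → Bool, RefutesAt F t s f g y →
    (∀ i, i < s → ¬ BadC F.1 q (KRC F.1 r w f i) (RG F.2 y)) → ∀ i, i < s →
      ∃ T : Finset (Fin M), (∀ c ∈ T, c ∈ RG F.2 y) ∧ T.card ≤ q ∧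
        CovC F.1 T (BRC (ERC F.1 r w f (i + 1)) (f i) (-(g i y)))

/-- DEG: good formulas have no short refutations. -/
def T_DEG : Prop :=
  ∀ {n k l M μ : ℕ} (γ : ℝ) (t w d s₀ : ℕ), Par0 γ n t k w d s₀ → ∀ F : Formula n k l M μ,
    H0 F.1 w s₀ → YG F.2 w s₀ →
    ∀ (Y : Finset (Fin n → Bool)) (s : ℕ) (f g : ℕ → (Fin n → Bool) → ℝ), Refutes F Y t s f g →
      ¬ (s : ℝ) * 2 ^ ((1 - γ) * n) < Y.card

/-! ### Random clauses on the side of `y` -/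

/-- YHV: few clauses are violated by two assignments which are far from each other. -/
def T_YHV : Prop :=
  ∀ (n l : ℕ) (η : ℝ) (y y' : Fin n → Bool), 0 ≤ η → η ≤ 1 → η * n ≤ hammingDist y y' →
    (Nat.card {c : Half n l // Violates c y ∧ Violates c y'} : ℝ) ≤
      (1 - η) ^ l / 2 ^ l * Nat.card (Half n l)

open Classical in
/-- YPA: given clauses are violated by given assignments which are far from each other. -/
def T_YPA : Prop :=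
  ∀ (n l μ z : ℕ) (η : ℝ) (y : Fin z → Fin n → Bool) (j : Fin z → Fin μ), 0 ≤ η → η ≤ 1 →
    (∀ a b, a ≠ b → η * n ≤ hammingDist (y a) (y b)) →
    (Nat.card {G : Fin μ → Half n l // ∀ a, Violates (G (j a)) (y a)} : ℝ) ≤
      (if Function.Injective j then 1 else (1 - η) ^ l) / (2 ^ l) ^ (univ.image j).card *
        Nat.card (Fin μ → Half n l)

/-- YPI: few tuples of clauses hit `z` assignments which are far from each other. -/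
def T_YPI : Prop :=
  ∀ (n l μ z : ℕ) (η lam : ℝ) (y : Fin z → Fin n → Bool), 0 ≤ η → η ≤ 1 → 0 ≤ lam → lam ≤ 1 →
    (∀ a b, a ≠ b → η * n ≤ hammingDist (y a) (y b)) →
    μ ≤ lam * 2 ^ l → (1 - η) ^ l ≤ lam ^ z →
    (Nat.card {G : Fin μ → Half n l // ∀ a, ∃ j, Violates (G j) (y a)} : ℝ) ≤
      (z : ℝ) ^ z * lam ^ z * Nat.card (Fin μ → Half n l)

/-- YUN: the union bound for the sets of `i` and the tuples of assignments. -/
def T_YUN : Prop :=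
  ∀ (n l M μ z q : ℕ) (η lam : ℝ), 0 ≤ η → η ≤ 1 → 0 ≤ lam → lam ≤ 1 →
    μ ≤ lam * 2 ^ l → (1 - η) ^ l ≤ lam ^ z →
    (Nat.card {D : Fin M × Fin μ → Half n l // ∃ (T : Finset (Fin M))
        (y : Fin z → Fin n → Bool), T.card = q + 1 ∧
        (∀ a b, a ≠ b → η * n ≤ hammingDist (y a) (y b)) ∧ ∀ i ∈ T, ∀ a, i ∈ RG D (y a)} : ℝ) ≤
      (M : ℝ) ^ (q + 1) * (2 ^ n) ^ z * ((z : ℝ) ^ z * lam ^ z) ^ (q + 1) *
        Nat.card (Fin M × Fin μ → Half n l)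

/-- VOL: the volume of a ball. -/
def T_VOL : Prop :=
  ∀ (n : ℕ) (ε : ℝ) (y : Fin n → Bool), 0 < ε → ε ≤ 1 / 4 →
    (Nat.card {y' : Fin n → Bool // (hammingDist y y' : ℝ) < ε ^ 2 / 4 * n} : ℝ) ≤ 2 ^ (ε * n)

/-- FAR: a large set contains `z` points which are far from each other. -/
def T_FAR : Prop :=
  ∀ (n z : ℕ) (h V : ℝ) (Y : Finset (Fin n → Bool)),
    (∀ y : Fin n → Bool, (Nat.card {y' : Fin n → Bool // (hammingDist y y' : ℝ) < h} : ℝ) ≤ V) →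
    z * V < Y.card →
    ∃ y : Fin z → Fin n → Bool, (∀ a, y a ∈ Y) ∧ ∀ a b, a ≠ b → h ≤ hammingDist (y a) (y b)

/-- YX: few `D` are not good. -/
def T_YX : Prop :=
  ∀ (n l M μ w q z : ℕ) (ε lam : ℝ), 0 < ε → ε ≤ 1 / 4 → 0 ≤ lam → lam ≤ 1 →
    μ ≤ lam * 2 ^ l → (1 - ε ^ 2 / 4) ^ l ≤ lam ^ z →
    (z : ℝ) * (2 : ℝ) ^ (ε * n) ≤ 2 ^ (n - w) →
    (M : ℝ) ^ (q + 1) * (2 ^ n) ^ z * ((z : ℝ) ^ z * lam ^ z) ^ (q + 1) * 2 ^ (n + 1) ≤ 1 →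
    2 ^ (n + 1) * Nat.card {D : Fin M × Fin μ → Half n l // ¬ YG D w q} ≤
      Nat.card (Fin M × Fin μ → Half n l)

/-- YNU: the parameters on the side of `y`. -/
def T_YNU : Prop :=
  ∃ C : ℕ, ∀ (ε : ℝ) (n t k l M w s₀ : ℕ), 0 < ε → ε ≤ 1 / 4 → 2 ≤ t →
    C * Nat.log 2 t ≤ ε ^ 2 * k → C * k ≤ ε ^ 2 * l →
    M ≤ (2 : ℝ) ^ ((1 + 2 * ε) * k) → (w + k : ℝ) ≤ (2 : ℝ) ^ (-(3 * ε)) * n →
    4 * (n : ℝ) + 4 ≤ ε * k * (s₀ + 1) →
    ∃ z : ℕ, (1 - ε ^ 2 / 4) ^ l ≤ ((2 : ℝ) ^ (-(ε * k))) ^ z ∧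
      (z : ℝ) * (2 : ℝ) ^ (ε * n) ≤ 2 ^ (n - w) ∧
      (M : ℝ) ^ (s₀ + 1) * (2 ^ n) ^ z *
        ((z : ℝ) ^ z * ((2 : ℝ) ^ (-(ε * k))) ^ z) ^ (s₀ + 1) * 2 ^ (n + 1) ≤ 1

/-! ### Chernoff and the end -/

/-- CHD: Chernoff for the side of `y`. -/
def T_CHD : Prop :=
  ∀ (ε : ℝ) (n t l M μ : ℕ) (y : Fin n → Bool) (A : Finset (Fin M)), 0 < ε → ε ≤ 1 → 1 ≤ t →
    32 * t * 2 ^ l ≤ ε ^ 2 * (A.card * μ) →
    2 ^ (3 * t + 1) * Nat.card {D : Fin M × Fin μ → Half n l //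
      (Nat.card {c : Fin M × Fin μ // c.1 ∈ A ∧ Violates (D c) y} : ℝ) <
        (1 - ε / 2) * (A.card * μ) / 2 ^ l} ≤ Nat.card (Fin M × Fin μ → Half n l)

/-- CHG: Chernoff and the union bound. -/
def T_CHG : Prop :=
  ∀ (ε : ℝ) (n t k l M μ : ℕ), 0 < ε → ε ≤ 1 → 1 ≤ t → n ≤ t →
    64 * t * 2 ^ k ≤ ε ^ 2 * M → 64 * t * 2 ^ (k + l) ≤ ε ^ 2 * (M * μ) →
    2 ^ t * Nat.card {F : Formula n k l M μ //
      ∃ x y, (Nat.card {c // False2 F c x y} : ℝ) < (1 - ε) * (M * μ) / 2 ^ (k + l)} ≤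
        Nat.card (Formula n k l M μ)

/-- ENG: the final statement. -/
def T_ENG : Prop := Main

end Pool.Agent.H82.BO
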