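import Pool.Agent.H82.BO.Targets
import Pool.Agent.H10.FLC.CHC
import Pool.Agent.H13.FLD.HL0
import Pool.Agent.H36.FLD.NM0
import Pool.Agent.H64.FLD.HX0
import Pool.Agent.H69.UK.TOU
import Pool.Agent.H80.UK.CHU
import Pool.Agent.H95.FLC.CAPC
import Pool.Agent.H95.FLC.KRCX
import Pool.Agent.H95.FLD.EB0
import Pool.Agent.H95.FLD.LX0
import Pool.Agent.H1.BO.YUN
import Pool.Agent.H11.BO.LFG
import Pool.Agent.H29.BO.YNU
import Pool.Agent.H35.BO.PRG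
import Pool.Agent.H4.BOP.VOL
import Pool.Agent.H49.BO.DEG
import Pool.Agent.H57.BOP.YX
import Pool.Agent.H61.BO.CHG
import Pool.Agent.H64.BOP.YPI
import Pool.Agent.H69.BO.FAR
import Pool.Agent.H85.BOP.YHV
import Pool.Agent.H85.BOP.YPA
import Pool.Agent.H94.BO.ENG
import Pool.Agent.H95.BOP.CHD

/-!
MP_c62aed_lc, cutting planes for random CNFs, the optimal exponent: composition of the rows.
-/

set_option autoImplicit false

namespace Pool.Agent.H82.BO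

theorem main : Main := by
  have hEB0 : Pool.Agent.H15.FLD.T_EB0 := Pool.Agent.H95.FLD.pf_EB0 Pool.Agent.H95.FLD.pf_LX0
  have hHX0 : Pool.Agent.H15.FLD.T_HX0 := Pool.Agent.H64.FLD.pf_HX0 Pool.Agent.H13.FLD.pf_HL0
  have hLFG : T_LFG := Pool.Agent.H11.BO.pf_LFG
  have hPRG : T_PRG := Pool.Agent.H35.BO.pf_PRG
  have hDEG : T_DEG := Pool.Agent.H49.BO.pf_DEG hEB0 Pool.Agent.H95.FLC.pf_KRCX
    Pool.Agent.H95.FLC.pf_CAPC hLFG hPRG
  have hYHV : T_YHV := Pool.Agent.H85.BOP.pf_YHV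
  have hYPA : T_YPA := Pool.Agent.H85.BOP.pf_YPA hYHV
  have hYPI : T_YPI := Pool.Agent.H64.BOP.pf_YPI hYPA
  have hYUN : T_YUN := Pool.Agent.H1.BO.pf_YUN hYPI
  have hVOL : T_VOL := Pool.Agent.H4.BOP.pf_VOL
  have hFAR : T_FAR := Pool.Agent.H69.BO.pf_FAR
  have hYX : T_YX := Pool.Agent.H57.BOP.pf_YX hYUN hVOL hFAR
  have hYNU : T_YNU := Pool.Agent.H29.BO.pf_YNU
  have hCHD : T_CHD := Pool.Agent.H95.BOP.pf_CHD
  have hCHG : T_CHG := Pool.Agent.H61.BO.pf_CHG Pool.Agent.H80.UK.pf_CHU Pool.Agent.H69.UK.pf_TOU hCHD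
  exact Pool.Agent.H94.BO.pf_ENG hDEG hHX0 hYX hYNU Pool.Agent.H36.FLD.pf_NM0 hCHG

end Pool.Agent.H82.BO
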