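import Pool.Agent.H15.FLC.Stmt

/-!
MP_c62aed_lc: cutting planes and separable inequalities for random CNFs, the optimal exponent.
The definitions used by the statement. `Half` and `Violates` are those of
`Pool/Agent/H15/FLC/Stmt.lean`.

The variables are `x_i` and `y_i`, `i : Fin n`. An assignment is a pair `(x, y)`.
-/

set_option autoImplicit false

namespace Pool.Agent.H82.BO

open Pool.Agent.H15.FLC (Half Violates)

/-- `F = (C, D)` stands for the CNF with the clauses `C i ∨ D (i, j)`, `i < M`, `j < μ`, where `C i`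
is a clause with `k` literals of the variables `x` and `D (i, j)` is a clause with `l` literals of
the variables `y`. -/
abbrev Formula (n k l M μ : ℕ) : Type := (Fin M → Half n k) × (Fin M × Fin μ → Half n l)

/-- The clause number `c = (i, j)` is false under the assignment `(x, y)`. -/
def False2 {n k l M μ : ℕ} (F : Formula n k l M μ) (c : Fin M × Fin μ) (x y : Fin n → Bool) :
    Prop :=
  Violates (F.1 c.1) x ∧ Violates (F.2 c) y

/-- For one value of the variables `y`: the inequalities `0 ≤ f i x + g i y`, `i < s`, for the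
variables `x` are a refutation of the CNF `F`: the last one is false for all `x`, and everyone
follows from at most `t` earlier ones and at most `t` clauses. -/
def RefutesAt {n k l M μ : ℕ} (F : Formula n k l M μ) (t s : ℕ)
    (f g : ℕ → (Fin n → Bool) → ℝ) (y : Fin n → Bool) : Prop :=
  (∀ x, f (s - 1) x + g (s - 1) y < 0) ∧
    ∀ i, i < s → ∃ (P : Finset ℕ) (T : Finset (Fin M × Fin μ)), P.card ≤ t ∧ T.card ≤ t ∧
      (∀ j ∈ P, j < i) ∧ ∀ x, (∀ j ∈ P, 0 ≤ f j x + g j y) → (∀ c ∈ T, ¬ False2 F c x y) →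
        0 ≤ f i x + g i y

/-- The inequalities `0 ≤ f i x + g i y`, `i < s`, with real functions `f i` and `g i` refute the CNF
`F` for all `y` in `Y`. The earlier inequalities and the clauses from which an inequality follows may
depend on `y`. -/
def Refutes {n k l M μ : ℕ} (F : Formula n k l M μ) (Y : Finset (Fin n → Bool)) (t s : ℕ)
    (f g : ℕ → (Fin n → Bool) → ℝ) : Prop :=
  0 < s ∧ ∀ y ∈ Y, RefutesAt F t s f g y

/-- The final statement. -/
def Main : Prop :=
  ∃ C : ℕ, ∀ (ε : ℝ) (n t k l M μ : ℕ), 0 < ε → ε ≤ 1 / 4 → 2 ≤ t → n ≤ t →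
    C * Nat.log 2 t ≤ ε ^ 2 * k → C * k ≤ ε ^ 2 * l → C * l ≤ ε * n →
      (M ≤ (2 : ℝ) ^ ((1 + 2 * ε) * k) → μ * (2 : ℝ) ^ (ε * k) ≤ 2 ^ l →
        2 ^ n * Nat.card {F : Formula n k l M μ //
          ∃ (Y : Finset (Fin n → Bool)) (s : ℕ) (f g : ℕ → (Fin n → Bool) → ℝ),
            (s : ℝ) * 2 ^ (4 * ε * n) < Y.card ∧ Refutes F Y t s f g} ≤
              Nat.card (Formula n k l M μ)) ∧
      (C * t * 2 ^ k ≤ ε ^ 2 * M → C * t * 2 ^ (k + l) ≤ ε ^ 2 * (M * μ) →
        2 ^ t * Nat.card {F : Formula n k l M μ //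
          ∃ x y, (Nat.card {c // False2 F c x y} : ℝ) < (1 - ε) * (M * μ) / 2 ^ (k + l)} ≤
            Nat.card (Formula n k l M μ))

end Pool.Agent.H82.BO
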